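import Pool.Agent.K1H73.ON.Stm

/-!
# Geometry of the exit
-/

set_option autoImplicit false

namespace Pool.Agent.K1H96.ON

open Finset Pool.Agent.K1H73.ON

lemma nbr_symm {p q : V} (h : Nbr p q) : Nbr q p := by
  rcases h with h | h | ⟨h, he⟩ | ⟨h, he⟩
  · right; left
    rw [← neg_sub, h]; rfl
  · left
    rw [← neg_sub, h]; rfl
  · right; right; right
    exact ⟨by rw [← neg_sub, h]; rfl, he⟩
  · right; right; left
    exact ⟨by rw [← neg_sub, h]; rfl, he⟩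

lemma nbr_coord {p q : V} (h : Nbr p q) :
    (q.1 = p.1 + 1 ∧ q.2 = p.2) ∨ (q.1 = p.1 - 1 ∧ q.2 = p.2) ∨
    (q.1 = p.1 ∧ q.2 = p.2 + 1 ∧ Even (p.1 + p.2)) ∨ (q.1 = p.1 ∧ q.2 = p.2 - 1) := by
  rcases h with h | h | ⟨h, he⟩ | ⟨h, he⟩
  all_goals
    have h1 := congrArg Prod.fst h
    have h2 := congrArg Prod.snd h
    simp only [Prod.fst_sub, Prod.snd_sub] at h1 h2
  · left; omega
  · right; left; omega
  · right; right; left; exact ⟨by omega, by omega, he⟩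
  · right; right; right; omega

lemma edge {D : Finset V} {a b : V} {ω : Finset (Sym2 V)} (h : IsCfg D a b ω) {u s : V}
    (he : s(u, s) ∈ ω) : Nbr u s ∧ u ∈ D ∧ s ∈ D := by
  obtain ⟨p, q, hpq, hn, hp, hq⟩ := h.1 _ he
  rcases Sym2.eq_iff.1 hpq with ⟨rfl, rfl⟩ | ⟨rfl, rfl⟩
  · exact ⟨hn, hp, hq⟩
  · exact ⟨nbr_symm hn, hq, hp⟩

lemma a_mem {K : ℕ} {D : Finset V} {a b : V} {k : ℤ} (h0 : Set0 K D a b) (hk1 : 1 ≤ k) :
    a ∈ R k := by
  obtain ⟨-, h2, h3, -, -⟩ := h0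
  refine ⟨?_, ?_, ?_⟩ <;> rcases h3 with h3 | h3 <;> omega

lemma step {K : ℕ} {D : Finset V} {a b : V} {ω : Finset (Sym2 V)} {k : ℤ}
    (h0 : Set0 K D a b) (hc : IsCfg D a b ω) (hk2 : k ≤ 3 * K) {v w : V}
    (hv : 0 ≤ v.2) (hvR : v ∈ R k) (he : s(v, w) ∈ ω) : 0 ≤ w.2 := by
  obtain ⟨hn, -, hwD⟩ := edge hc he
  obtain ⟨r1, r2, r3⟩ := hvR
  have h1 : |w.1| ≤ 6 * K + 20 := by
    rw [abs_le]
    rcases nbr_coord hn with h | h | h | h <;> constructor <;> omega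
  have h2 : w.2 ≤ 3 * K + 10 := by
    rcases nbr_coord hn with h | h | h | h <;> omega
  exact (h0.1 w h1 h2).1 hwD

lemma inv_path {K : ℕ} {D : Finset V} {a b : V} {ω ω' : Finset (Sym2 V)} {k : ℤ}
    (h0 : Set0 K D a b) (hc : IsCfg D a b ω) (hk1 : 1 ≤ k) (hk2 : k ≤ 3 * K) (hsub : ω' ⊆ ω)
    (hR : ∀ e ∈ ω', ∀ v ∈ e, v ∈ R k) {v : V} (h : Conn ω' a v) : 0 ≤ v.2 ∧ v ∈ R k := by
  have h' := (SimpleGraph.reachable_iff_reflTransGen a v).1 h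
  induction h' with
  | refl => exact ⟨by rw [h0.2.1], a_mem h0 hk1⟩
  | @tail x y hx hxy ih =>
    obtain ⟨i1, i2⟩ := ih ((SimpleGraph.reachable_iff_reflTransGen a x).2 hx)
    rw [SimpleGraph.fromEdgeSet_adj] at hxy
    have hmem : s(x, y) ∈ ω' := by exact_mod_cast hxy.1
    exact ⟨step h0 hc hk2 i1 i2 (hsub hmem), hR _ hmem y (Sym2.mem_mk_right x y)⟩

lemma cor_bd (c : V) (i : ℕ) (hi : i < 6) : c.1 ≤ (cor c i).1 ∧ (cor c i).1 ≤ c.1 + 2 ∧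
    c.2 ≤ (cor c i).2 ∧ (cor c i).2 ≤ c.2 + 1 := by
  interval_cases i <;> simp [cor]

lemma good {K : ℕ} {D : Finset V} {a b : V} {k : ℤ} (h0 : Set0 K D a b) (hk1 : 1 ≤ k) (c : V)
    (hA : k ≤ c.2 ∨ 2 * k ≤ c.1 + c.2 ∨ 2 * k ≤ c.2 - c.1 - 2)
    (hB : c.2 < k + 2 ∧ c.1 + c.2 < 2 * k + 3 ∧ c.2 - c.1 < 2 * k + 5)
    (hC : -(6 * (K : ℤ) + 20) ≤ c.1 ∧ c.1 ≤ 6 * K + 18 ∧ c.2 ≤ 3 * K + 9 ∧ 0 ≤ c.2) :
    ∀ i < 6, cor c i ∈ D ∧ cor c i ∉ R k ∧ cor c i ∈ R (k + 3) ∧ cor c i ≠ a ∧ cor c i ≠ b := by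
  intro i hi
  obtain ⟨b1, b2, b3, b4⟩ := cor_bd c i hi
  have hbox1 : |(cor c i).1| ≤ 6 * K + 20 := by
    rw [abs_le]
    constructor <;> omega
  have hbox2 : (cor c i).2 ≤ 3 * K + 10 := by omega
  have hnR : cor c i ∉ R k := by
    rintro ⟨h1, h2, h3⟩
    omega
  refine ⟨(h0.1 _ hbox1 hbox2).2 (by omega), hnR, ⟨by omega, by omega, by omega⟩, ?_, ?_⟩
  · intro h
    apply hnR
    rw [h]
    exact a_mem h0 hk1
  · intro h
    apply h0.2.2.2.2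
    rw [← h]
    exact ⟨hbox1, hbox2⟩

theorem t_GEO : GEO := by
  intro K D a b ω k h0 hc hk1 hk2 hex
  unfold hx
  obtain ⟨⟨u, s⟩, hp⟩ : ∃ p, p = ex a ω k := ⟨_, rfl⟩
  rw [← hp] at hex ⊢
  obtain ⟨hu1, hs1, he, ω', hsub, hR, hconn⟩ := hex
  dsimp only at hu1 hs1 he hconn ⊢
  have hu2 := (inv_path h0 hc hk1 hk2 hsub hR hconn).1
  have hs2 := step h0 hc hk2 hu2 hu1 he
  obtain ⟨hn, -, -⟩ := edge hc he
  have hconn2 : Conn ω a u :=
    SimpleGraph.Reachable.mono (SimpleGraph.fromEdgeSet_mono (by exact_mod_cast hsub)) hconn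
  have hus : u ≠ s := by
    rintro rfl
    exact hs1 hu1
  have hconn3 : Conn ω a s := by
    refine SimpleGraph.Reachable.trans hconn2 (SimpleGraph.Adj.reachable ?_)
    rw [SimpleGraph.fromEdgeSet_adj]
    exact ⟨by exact_mod_cast he, hus⟩
  obtain ⟨r1, r2, r3⟩ := id hu1
  have hs1' : ¬ (s.2 < k ∧ s.1 + s.2 < 2 * k ∧ s.2 - s.1 < 2 * k) := fun h => hs1 ⟨hs2, h⟩
  have key : Even ((crn (u, s)).1 + (crn (u, s)).2) ∧
      (∀ i < 6, cor (crn (u, s)) i ∈ D ∧ cor (crn (u, s)) i ∉ R k ∧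
        cor (crn (u, s)) i ∈ R (k + 3) ∧ cor (crn (u, s)) i ≠ a ∧ cor (crn (u, s)) i ≠ b) ∧
      ∃ j < 6, s = cor (crn (u, s)) j := by
    rcases nbr_coord hn with ⟨h1, h2⟩ | ⟨h1, h2⟩ | ⟨h1, h2, h3⟩ | ⟨h1, h2⟩
    · have hcr : crn (u, s) = s := by
        unfold crn
        dsimp only
        rw [if_neg (by simpa using h2), if_pos h1]
      rw [hcr]
      have h4 : s.1 + s.2 = 2 * k := by omega
      refine ⟨⟨k, by omega⟩, good h0 hk1 s (by omega) (by omega) (by omega), 0, by norm_num, ?_⟩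
      simp [cor]
    · have hcr : crn (u, s) = (s.1 - 2, s.2) := by
        unfold crn
        dsimp only
        rw [if_neg (by simpa using h2), if_neg (by omega)]
      rw [hcr]
      have h4 : s.2 - s.1 = 2 * k := by omega
      refine ⟨⟨s.2 - k - 1, by dsimp only; omega⟩,
        good h0 hk1 (s.1 - 2, s.2) (by dsimp only; omega) (by dsimp only; omega)
          (by dsimp only; omega), 2, by norm_num, ?_⟩
      simp [cor]
    · have hcr : crn (u, s) = (s.1 - 1, s.2) := by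
        unfold crn
        dsimp only
        rw [if_pos (by omega)]
      rw [hcr]
      obtain ⟨m, hm⟩ := h3
      have h4 : s.2 = k := by omega
      refine ⟨⟨m, by dsimp only; omega⟩,
        good h0 hk1 (s.1 - 1, s.2) (by dsimp only; omega) (by dsimp only; omega)
          (by dsimp only; omega), 1, by norm_num, ?_⟩
      simp [cor]
    · exfalso
      apply hs1'
      omega
  refine ⟨key.1, key.2.1, key.2.2, ?_, hconn2, hconn3⟩
  intro j hj h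
  exact (key.2.1 j hj).2.1 (h ▸ hu1)

end Pool.Agent.K1H96.ON
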